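import Pool.Agent.H914R2.HLam

/-!
# The star operator of a Lefschetz structure
-/

open Finset

namespace Pool.Agent.E8helper65.TX

open Pool.Agent.H914

section star

variable {K : Type*} [Field K] [CharZero K] {V : Type*} [AddCommGroup V] [Module K V]
  {gr : ℕ → Submodule K V} {n : ℕ} {L : Module.End K V}

/-- The star operator on `L ^ j a`, for `a` primitive. -/
def IsStar (gr : ℕ → Submodule K V) (n : ℕ) (L s : Module.End K V) : Prop :=
  ∀ i ≤ n, ∀ a ∈ gr i, (L ^ (n - i + 1)) a = 0 → ∀ j ≤ n - i,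
    s ((L ^ j) a) = ((-1 : K) ^ (i * (i - 1) / 2)) • (L ^ (n - i - j)) a

theorem exists_star [Module.Finite K V] (h : DirectSum.IsInternal gr) (hL : IsHom gr 2 L)
    (hbd : ∀ i, 2 * n + 1 ≤ i → gr i = ⊥) (hHL : HardLef gr n L) :
    ∃ s : Module.End K V, IsStar gr n L s := by
  obtain ⟨Φ, hΦh, hΦ⟩ := exists_isLam h hL hbd hHL
  refine ⟨∑ i ∈ range (n + 1), ∑ j ∈ range (n - i + 1),
    ((-1 : K) ^ (i * (i - 1) / 2)) • (L ^ (n - i - j) * Φ ^ j * eij h L Φ i j), ?_⟩
  intro i hi a ha hp j hj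
  rw [LinearMap.sum_apply, Finset.sum_eq_single i]
  · rw [LinearMap.sum_apply, Finset.sum_eq_single j]
    · rw [LinearMap.smul_apply, Module.End.mul_apply, eij_apply h hL hΦ hi ha hp hj,
        if_pos ⟨rfl, rfl⟩, Module.End.mul_apply, lam_pow hΦ hi ha hp hj j le_rfl, Nat.sub_self,
        pow_zero, Module.End.one_apply]
    · intro j' _ hj'
      rw [LinearMap.smul_apply, Module.End.mul_apply, eij_apply h hL hΦ hi ha hp hj,
        if_neg (by tauto), map_zero, smul_zero]
    · intro h'; exact absurd (Finset.mem_range.2 (by omega)) h'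
  · intro i' _ hi'
    rw [LinearMap.sum_apply]
    apply Finset.sum_eq_zero
    intro j' _
    rw [LinearMap.smul_apply, Module.End.mul_apply, eij_apply h hL hΦ hi ha hp hj,
      if_neg (by tauto), map_zero, smul_zero]
  · intro h'; exact absurd (Finset.mem_range.2 (by omega)) h'

theorem IsStar.ext (h : DirectSum.IsInternal gr) (hL : IsHom gr 2 L)
    (hbd : ∀ i, 2 * n + 1 ≤ i → gr i = ⊥) (hHL : HardLef gr n L) {W : Type*} [AddCommGroup W]
    {F G : V → W} (hF : ∀ a b, F (a + b) = F a + F b) (hG : ∀ a b, G (a + b) = G a + G b)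
    (h0 : ∀ i ≤ n, ∀ a ∈ gr i, (L ^ (n - i + 1)) a = 0 → ∀ j ≤ n - i,
      F ((L ^ j) a) = G ((L ^ j) a)) (x : V) : F x = G x := by
  have hF0 : F 0 = 0 := by
    have := hF 0 0
    rw [add_zero] at this
    exact left_eq_add.1 this
  have hG0 : G 0 = 0 := by
    have := hG 0 0
    rw [add_zero] at this
    exact left_eq_add.1 this
  refine lef_induction' h hL hbd hHL (p := fun x => F x = G x) ?_ ?_ x
  · intro a b ha hb
    rw [hF, hG, ha, hb]
  · intro i hi a ha hp j
    by_cases hj : j ≤ n - i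
    · exact h0 i hi a ha hp j hj
    · rw [L_pow_gt hp (by omega), hF0, hG0]

theorem IsStar.sq (h : DirectSum.IsInternal gr) (hL : IsHom gr 2 L)
    (hbd : ∀ i, 2 * n + 1 ≤ i → gr i = ⊥) (hHL : HardLef gr n L) {s : Module.End K V}
    (hs : IsStar gr n L s) : s * s = 1 := by
  apply LinearMap.ext
  intro x
  refine IsStar.ext h hL hbd hHL (F := fun x => (s * s) x) (G := fun x => (1 : Module.End K V) x)
    (fun a b => map_add _ _ _) (fun a b => map_add _ _ _) ?_ x
  intro i hi a ha hp j hj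
  change s (s ((L ^ j) a)) = (L ^ j) a
  rw [hs i hi a ha hp j hj, map_smul, hs i hi a ha hp _ (by omega), smul_smul, ← pow_add,
    ← two_mul, pow_mul, neg_one_sq, one_pow, one_smul, show n - i - (n - i - j) = j by omega]

theorem IsStar.comm (h : DirectSum.IsInternal gr) (hL : IsHom gr 2 L)
    (hbd : ∀ i, 2 * n + 1 ≤ i → gr i = ⊥) (hHL : HardLef gr n L) {s : Module.End K V}
    (hs : IsStar gr n L s) {f : Module.End K V} (hf : ∀ i, ∀ x ∈ gr i, f x ∈ gr i)
    (hfL : ∀ x, f (L x) = L (f x)) : f * s = s * f := by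
  have hpow : ∀ (m : ℕ) (x : V), f ((L ^ m) x) = (L ^ m) (f x) := by
    intro m
    induction m with
    | zero => intro x; simp
    | succ m ih =>
      intro x
      rw [pow_succ', Module.End.mul_apply, hfL, ih, Module.End.mul_apply]
  apply LinearMap.ext
  intro x
  refine IsStar.ext h hL hbd hHL (F := fun x => (f * s) x) (G := fun x => (s * f) x)
    (fun a b => map_add _ _ _) (fun a b => map_add _ _ _) ?_ x
  intro i hi a ha hp j hj
  change f (s ((L ^ j) a)) = s (f ((L ^ j) a))
  rw [hs i hi a ha hp j hj, map_smul, hpow, hpow, hs i hi (f a) (hf i a ha)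
    (by rw [← hpow, hp, map_zero]) j hj]

end star

section pos

/-- Positivity of a form from an orthogonal decomposition. -/
theorem pos_of_pieces {V ι : Type*} [AddCommGroup V] (B : V → V → ℂ)
    (hBl : ∀ x x' y, B (x + x') y = B x y + B x' y)
    (hBr : ∀ x y y', B x (y + y') = B x y + B x y') (f : ι →₀ V)
    (h0 : ∀ i j, i ≠ j → B (f i) (f j) = 0)
    (h1 : ∀ i, f i ≠ 0 → ∃ r : ℝ, 0 < r ∧ B (f i) (f i) = r) (x : V) (hx : x ≠ 0)
    (hsum : (f.sum fun _ y => y) = x) : ∃ r : ℝ, 0 < r ∧ B x x = r := by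
  classical
  have hl0 : ∀ y, B 0 y = 0 := by
    intro y
    have := hBl 0 0 y
    rw [add_zero] at this
    exact left_eq_add.1 this
  have hr0 : ∀ y, B y 0 = 0 := by
    intro y
    have := hBr y 0 0
    rw [add_zero] at this
    exact left_eq_add.1 this
  have hl : ∀ (s : Finset ι) (y : V), B (∑ i ∈ s, f i) y = ∑ i ∈ s, B (f i) y := by
    intro s y
    induction s using Finset.induction_on with
    | empty => rw [Finset.sum_empty, Finset.sum_empty, hl0]
    | insert a s ha ih => rw [Finset.sum_insert ha, Finset.sum_insert ha, hBl, ih]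
  have hr : ∀ (s : Finset ι) (y : V), B y (∑ i ∈ s, f i) = ∑ i ∈ s, B y (f i) := by
    intro s y
    induction s using Finset.induction_on with
    | empty => rw [Finset.sum_empty, Finset.sum_empty, hr0]
    | insert a s ha ih => rw [Finset.sum_insert ha, Finset.sum_insert ha, hBr, ih]
  have hxs : x = ∑ i ∈ f.support, f i := hsum.symm
  have e1 : B x x = ∑ i ∈ f.support, B (f i) (f i) := by
    rw [hxs, hl]
    apply Finset.sum_congr rfl
    intro i hi
    rw [hr, Finset.sum_eq_single i]
    · intro j _ hj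
      exact h0 i j (Ne.symm hj)
    · intro h; exact absurd hi h
  have h2 : ∀ i, ∃ r : ℝ, (f i ≠ 0 → 0 < r) ∧ B (f i) (f i) = r := by
    intro i
    by_cases hi : f i = 0
    · exact ⟨0, fun h => absurd hi h, by rw [hi, hl0]; simp⟩
    · obtain ⟨r, hr1, hr2⟩ := h1 i hi
      exact ⟨r, fun _ => hr1, hr2⟩
  choose r hr1 hr2 using h2
  refine ⟨∑ i ∈ f.support, r i, ?_, ?_⟩
  · apply Finset.sum_pos
    · intro i hi
      exact hr1 i (Finsupp.mem_support_iff.1 hi)
    · by_contra hcon
      rw [Finset.not_nonempty_iff_eq_empty] at hcon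
      rw [hcon, Finset.sum_empty] at hxs
      exact hx hxs
  · rw [e1]
    push_cast
    exact Finset.sum_congr rfl fun i _ => hr2 i

end pos

end Pool.Agent.E8helper65.TX
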