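import Pool.Agent.E8helper1.TX.JDefs
import Pool.Agent.E8helper65.TX.Star
import Pool.Agent.H914R2.PDesc
import Pool.Agent.Y121.AH.Abs

/-!
# The star operator and the Hodge-Riemann relations
-/

open CategoryTheory AlgebraicGeometry

universe u

set_option linter.unusedSectionVars false

namespace Pool.Agent.E8helper65.TX

open Module
open Pool.Agent.H914 Pool.Agent.H914.VarClass Pool.Agent.H914.VarClass.Obj
  Pool.Agent.H914.WeilCohomology
open Pool.Agent.E8helper1.TX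
open Pool.Agent.Y121.AHS (HL emL smL mulL mapL Types IsType SumsTo IsDirect RespMul RespMap
  RespCyc grL IsHodgeClass)
open Pool.Agent.Y121.AH (em em_add em_zero ex em_smul em_mul em_cl em_gr em_injective)

variable {k : Type u} [Field k] {𝒱 : VarClass k} {ops : CycleOps 𝒱}
  {W : WeilCohomology.{u, 0} ops} [Algebra W.K ℂ] {X : 𝒱.Obj}

/-- The class `x` is of type `(p, q)`. -/
def PQ (H : HodgeDec W) (p q : ℤ) (x : (baseW W ℂ).H X) : Prop := IsType H.pq p q (x : HL W ℂ X)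

lemma indep_zero {R M ι : Type*} [Ring R] [AddCommGroup M] [Module R M] {p : ι → Submodule R M}
    (h : iSupIndep p) (s : Finset ι) (v : ι → M) (hv : ∀ i ∈ s, v i ∈ p i)
    (hs : ∑ i ∈ s, v i = 0) : ∀ i ∈ s, v i = 0 := by
  classical
  intro i hi
  refine Submodule.disjoint_def.1 (h i) (v i) (hv i hi) ?_
  rw [← Finset.add_sum_erase s v hi] at hs
  rw [eq_neg_of_add_eq_zero_left hs]
  refine Submodule.neg_mem _ (Submodule.sum_mem _ fun j hj => ?_)
  have h1 : p j ≤ ⨆ (j) (_ : j ≠ i), p j :=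
    le_iSup₂_of_le j (Finset.ne_of_mem_erase hj) le_rfl
  exact h1 (hv j (Finset.mem_of_mem_erase hj))

lemma em_pow' (a : W.H X) (m : ℕ) : em W ℂ (a ^ m) = em W ℂ a ^ m := by
  induction m with
  | zero => rw [pow_zero, pow_zero]; rfl
  | succ m ih => rw [pow_succ, pow_succ, em_mul, ih]

section pq

variable (H : HodgeDec W)

lemma PQ.zero (p q : ℤ) : PQ H p q (0 : (baseW W ℂ).H X) := Submodule.zero_mem (H.pq X p q)

lemma PQ.add {p q : ℤ} {x y : (baseW W ℂ).H X} (hx : PQ H p q x) (hy : PQ H p q y) :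
    PQ H p q (x + y) := Submodule.add_mem (H.pq X p q) hx hy

lemma PQ.smul {p q : ℤ} {x : (baseW W ℂ).H X} (c : (baseW W ℂ).K) (hx : PQ H p q x) :
    PQ H p q (c • x) := Submodule.smul_mem (H.pq X p q) c hx

lemma PQ.mul {p q r s : ℤ} {x y : (baseW W ℂ).H X} (hx : PQ H p q x) (hy : PQ H r s y) :
    PQ H (p + r) (q + s) (x * y) := H.mul X p q r s x y hx hy

lemma PQ.xi {D : X.Cycles} (hD : X.IsCyc 1 D) : PQ H 1 1 ((baseW W ℂ).cl X D) := by
  have h := (H.cyc X 1 D hD).2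
  exact_mod_cast h

lemma PQ.pow_mul {D : X.Cycles} (hD : X.IsCyc 1 D) {p q : ℤ} {x : (baseW W ℂ).H X}
    (hx : PQ H p q x) (j : ℕ) : PQ H (p + j) (q + j) ((baseW W ℂ).cl X D ^ j * x) := by
  induction j with
  | zero =>
    rw [pow_zero, one_mul]
    simpa using hx
  | succ j ih =>
    have h := (PQ.xi H hD).mul H ih
    rw [pow_succ', mul_assoc]
    have e1 : (1 : ℤ) + (p + j) = p + ((j + 1 : ℕ) : ℤ) := by push_cast; ring
    have e2 : (1 : ℤ) + (q + j) = q + ((j + 1 : ℕ) : ℤ) := by push_cast; ring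
    rw [e1, e2] at h
    exact h

lemma PQ.gr {p q : ℤ} {i : ℕ} (hi : p + q = i) {x : (baseW W ℂ).H X} (hx : PQ H p q x) :
    x ∈ (baseW W ℂ).gr X i := by
  have h1 : H.pq X p q ≤ grL W ℂ X i := by
    rw [H.span X i]
    exact le_iSup (fun r : {r : ℤ × ℤ // r.1 + r.2 = (i : ℤ)} => H.pq X r.1.1 r.1.2) ⟨(p, q), hi⟩
  exact h1 hx

lemma PQ.tr {p q : ℤ} {x : (baseW W ℂ).H X} (hx : PQ H p q x) (h : (baseW W ℂ).tr X x ≠ 0) :
    p = q := H.top X p q x hx h

/-- The components of a homogeneous class. -/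
lemma exists_comp {i : ℕ} {x : (baseW W ℂ).H X} (hx : x ∈ (baseW W ℂ).gr X i) :
    ∃ f : {r : ℤ × ℤ // r.1 + r.2 = (i : ℤ)} →₀ (baseW W ℂ).H X,
      (∀ r, PQ H r.1.1 r.1.2 (f r)) ∧ ∑ r ∈ f.support, f r = x := by
  have h1 : grL W ℂ X i ≤ ⨆ r : {r : ℤ × ℤ // r.1 + r.2 = (i : ℤ)}, H.pq X r.1.1 r.1.2 :=
    le_of_eq (H.span X i)
  have h2 := h1 hx
  obtain ⟨f, hf, hs⟩ := (Submodule.mem_iSup_iff_exists_finsupp
    (fun r : {r : ℤ × ℤ // r.1 + r.2 = (i : ℤ)} => H.pq X r.1.1 r.1.2) (x : HL W ℂ X)).1 h2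
  exact ⟨f, hf, hs⟩

/-- The components of a primitive class are primitive. -/
lemma comp_prim {D : X.Cycles} (hD : X.IsCyc 1 D) {i : ℕ}
    (f : {r : ℤ × ℤ // r.1 + r.2 = (i : ℤ)} →₀ (baseW W ℂ).H X)
    (hf : ∀ r, PQ H r.1.1 r.1.2 (f r)) (m : ℕ)
    (h0 : (baseW W ℂ).cl X D ^ m * ∑ r ∈ f.support, f r = 0) (r) :
    (baseW W ℂ).cl X D ^ m * f r = 0 := by
  by_cases hr : r ∈ f.support
  · rw [Finset.mul_sum] at h0
    have hinj : Function.Injective
        (fun r : {r : ℤ × ℤ // r.1 + r.2 = (i : ℤ)} => ((r.1.1 + m, r.1.2 + m) : ℤ × ℤ)) := by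
      rintro ⟨⟨a, b⟩, h⟩ ⟨⟨a', b'⟩, h'⟩ hab
      simp only [Prod.mk.injEq, add_left_inj] at hab
      simp only [Subtype.mk.injEq, Prod.mk.injEq]
      exact hab
    have h1 := (H.indep X).comp hinj
    exact indep_zero h1 f.support (fun r => ((baseW W ℂ).cl X D ^ m * f r : (baseW W ℂ).H X))
      (fun r _ => PQ.pow_mul H hD (hf r) m) h0 r hr
  · rw [Finsupp.notMem_support_iff.1 hr, mul_zero]

end pq

/-- The indices of the decomposition. -/
abbrev Ix (n : ℕ) : Type := {t : ℕ × ℕ × ℕ // t.1 + t.2.1 + t.2.2 ≤ n}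

/-- The piece with index `(p, q, r)`: the classes `ξ ^ r a`, with `a` primitive of type `(p, q)`. -/
def Pc (H : HodgeDec W) (D : X.Cycles) (t : Ix X.dim) :
    Submodule (baseW W ℂ).K ((baseW W ℂ).H X) where
  carrier := {x | ∃ a, PQ H t.1.1 t.1.2.1 a ∧
    (baseW W ℂ).cl X D ^ (X.dim - (t.1.1 + t.1.2.1) + 1) * a = 0 ∧
    x = (baseW W ℂ).cl X D ^ t.1.2.2 * a}
  zero_mem' := ⟨0, PQ.zero H _ _, mul_zero _, (mul_zero _).symm⟩
  add_mem' := by
    rintro x y ⟨a, ha, ha0, rfl⟩ ⟨b, hb, hb0, rfl⟩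
    exact ⟨a + b, ha.add H hb, by rw [mul_add, ha0, hb0, add_zero], (mul_add _ _ _).symm⟩
  smul_mem' := by
    rintro c x ⟨a, ha, ha0, rfl⟩
    exact ⟨c • a, ha.smul H c, by rw [mul_smul_comm, ha0, smul_zero], (mul_smul_comm _ _ _).symm⟩

section main

variable (H : HodgeDec W) {D : X.Cycles}

/-- The Lefschetz operator. -/
noncomputable abbrev Lo (W : WeilCohomology.{u, 0} ops) [Algebra W.K ℂ] (X : 𝒱.Obj) (D : X.Cycles) :
    Module.End (baseW W ℂ).K ((baseW W ℂ).H X) :=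
  LinearMap.mulLeft (baseW W ℂ).K ((baseW W ℂ).cl X D)

lemma Lo_pow (j : ℕ) (a : (baseW W ℂ).H X) :
    (Lo W X D ^ j) a = (baseW W ℂ).cl X D ^ j * a := by
  rw [Lo, LinearMap.pow_mulLeft, LinearMap.mulLeft_apply]

/-- Every class is a sum of classes in the pieces. -/
theorem iSup_Pc (heff : ∀ (p q : ℤ) (x : HL W ℂ X), IsType H.pq p q x → x ≠ 0 → 0 ≤ p ∧ 0 ≤ q)
    (hD : X.IsCyc 1 D) (hHL : HardLefschetz W X D) (x : (baseW W ℂ).H X) :
    x ∈ ⨆ t, Pc H D t := by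
  refine lef_induction' (n := X.dim) (L := Lo W X D) ((baseW W ℂ).isInternal X)
    (mulLeft_isHom (W := baseW W ℂ) hD) (W_hbd (W := baseW W ℂ)) (base_hardLefschetz hD hHL)
    (p := fun x => x ∈ ⨆ t, Pc H D t) (fun a b ha hb => Submodule.add_mem _ ha hb) ?_ x
  intro i hi a ha hp j
  by_cases hj : j ≤ X.dim - i
  · rw [Lo_pow] at hp ⊢
    obtain ⟨f, hf, hs⟩ := exists_comp H ha
    rw [← hs] at hp ⊢
    rw [Finset.mul_sum]
    refine Submodule.sum_mem _ fun r hr => ?_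
    have h1 := comp_prim H hD f hf _ hp r
    obtain ⟨h2, h3⟩ := heff _ _ _ (hf r) (Finsupp.mem_support_iff.1 hr)
    obtain ⟨p, hp'⟩ := Int.eq_ofNat_of_zero_le h2
    obtain ⟨q, hq'⟩ := Int.eq_ofNat_of_zero_le h3
    have h4 : p + q = i := by
      have := r.2
      rw [hp', hq'] at this
      exact_mod_cast this
    have h5 : p + q + j ≤ X.dim := by omega
    refine Submodule.mem_iSup_of_mem (⟨(p, q, j), h5⟩ : Ix X.dim) ⟨f r, ?_, ?_, rfl⟩
    · have := hf r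
      rw [hp', hq'] at this
      exact this
    · change (baseW W ℂ).cl X D ^ (X.dim - (p + q) + 1) * f r = 0
      rw [h4]
      exact h1
  · rw [L_pow_gt hp (by omega)]
    exact Submodule.zero_mem _

/-- The star operator after the extension of the coefficients. -/
theorem bcO_star (hD : X.IsCyc 1 D) (hHL : HardLefschetz W X D) {s : Module.End W.K (W.H X)}
    (hs : IsStar (W.gr X) X.dim (LinearMap.mulLeft W.K (W.cl X D)) s) :
    IsStar ((baseW W ℂ).gr X) X.dim (Lo W X D) (bcO s) := by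
  obtain ⟨s', hs'⟩ := exists_star (n := X.dim) (L := Lo W X D) ((baseW W ℂ).isInternal X)
    (mulLeft_isHom (W := baseW W ℂ) hD) (W_hbd (W := baseW W ℂ)) (base_hardLefschetz hD hHL)
  have hL : ∀ (j : ℕ) (a : W.H X), em W ℂ (((LinearMap.mulLeft W.K (W.cl X D)) ^ j) a) =
      (Lo W X D ^ j) (em W ℂ a) := by
    intro j a
    rw [Lo_pow, LinearMap.pow_mulLeft, LinearMap.mulLeft_apply, em_mul, em_pow']
    rfl
  have hb : ∀ a : W.H X, bcO s (em W ℂ a) = em W ℂ (s a) := fun a =>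
    LinearMap.baseChange_tmul _ _ _
  have h1 : ∀ v : W.H X, bcO s (em W ℂ v) = s' (em W ℂ v) := by
    intro v
    refine IsStar.ext (n := X.dim) (L := LinearMap.mulLeft W.K (W.cl X D)) (W.isInternal X)
      (mulLeft_isHom hD) W_hbd hHL (F := fun v => bcO s (em W ℂ v)) (G := fun v => s' (em W ℂ v))
      (fun a b => by rw [em_add, map_add]) (fun a b => by rw [em_add, map_add]) ?_ v
    intro i hi a ha hp j hj
    have hp' : (Lo W X D ^ (X.dim - i + 1)) (em W ℂ a) = 0 := by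
      rw [← hL, hp, em_zero]
    have e1 := hs i hi a ha hp j hj
    have e2 := hs' i hi (em W ℂ a) (em_gr ha) hp' j hj
    change bcO s (em W ℂ _) = s' (em W ℂ _)
    rw [hb, e1, hL, e2, em_smul, hL]
    congr 1
    change algebraMap W.K ℂ ((-1) ^ (i * (i - 1) / 2)) = (-1 : ℂ) ^ (i * (i - 1) / 2)
    rw [map_pow, map_neg, map_one]
  have h2 : bcO s = s' := by
    apply LinearMap.ext
    intro x
    refine tmul_induction (K := W.K) (L := ℂ) (A := W.H X) (P := fun x => bcO s x = s' x)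
      ?_ ?_ ?_ x
    · exact (map_zero (bcO s)).trans (map_zero s').symm
    · intro x y hx hy
      exact (map_add (bcO s) x y).trans ((congrArg₂ _ hx hy).trans (map_add s' x y).symm)
    · intro l a
      have e : (l ⊗ₜ[W.K] a : TensorProduct W.K ℂ (W.H X)) = cK W l • em W ℂ a := by
        change _ = l • ((1 : ℂ) ⊗ₜ[W.K] a)
        rw [TensorProduct.smul_tmul', smul_eq_mul, mul_one]
      rw [e]
      exact (map_smul (bcO s) _ _).trans ((congrArg _ (h1 a)).trans (map_smul s' _ _).symm)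
  rw [h2]
  exact hs'

variable (T : TwConj W)

lemma J_zero : T.J X 0 = 0 := by
  have h := T.map_add X 0 0
  rw [add_zero] at h
  exact (left_eq_add.1 h)

lemma J_pow (D : X.Cycles) (j : ℕ) (a : (baseW W ℂ).H X) :
    T.J X ((baseW W ℂ).cl X D ^ j * a) = (baseW W ℂ).cl X D ^ j * T.J X a := by
  induction j with
  | zero => rw [pow_zero, one_mul, one_mul]
  | succ j ih =>
    rw [pow_succ', mul_assoc, T.map_mul, ih, mul_assoc]
    congr 1
    exact T.map_cyc X D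

lemma J_type (hT : ∀ (X : 𝒱.Obj) (p q : ℤ) (x : HL W ℂ X), IsType H.pq p q x →
    (T.J X x : HL W ℂ X) = smL (Complex.I ^ (p - q)) (H.cj X x)) {p q : ℤ}
    {a : (baseW W ℂ).H X} (ha : PQ H p q a) : PQ H q p (T.J X a) := by
  have h1 : (T.J X a : HL W ℂ X) = smL (Complex.I ^ (p - q)) (H.cj X a) := hT X p q a ha
  have h2 : IsType H.pq q p (H.cj X a) := H.conj.type X p q a ha
  have h3 : IsType H.pq q p (smL (Complex.I ^ (p - q)) (H.cj X a)) :=
    Submodule.smul_mem (H.pq X q p) _ h2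
  unfold PQ
  rw [h1]
  exact h3

/-- The complex conjugation. -/
def cjb (H : HodgeDec W) (a : (baseW W ℂ).H X) : (baseW W ℂ).H X := H.cj X a

lemma J_val (hT : ∀ (X : 𝒱.Obj) (p q : ℤ) (x : HL W ℂ X), IsType H.pq p q x →
    (T.J X x : HL W ℂ X) = smL (Complex.I ^ (p - q)) (H.cj X x)) {p q : ℤ}
    {a : (baseW W ℂ).H X} (ha : PQ H p q a) :
    T.J X a = cK W (Complex.I ^ (p - q)) • cjb H a := hT X p q a ha

lemma mul_swap (hD : X.IsCyc 1 D) (r m : ℕ) (a b : (baseW W ℂ).H X) :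
    ((baseW W ℂ).cl X D ^ r * a) * ((baseW W ℂ).cl X D ^ m * b) =
      (baseW W ℂ).cl X D ^ (r + m) * (a * b) := by
  have h1 : Commute ((baseW W ℂ).cl X D) a :=
    (baseW W ℂ).even_comm (p := 1) ((baseW W ℂ).cl_mem hD) a
  have h2 := (h1.pow_left m).eq
  rw [pow_add, mul_assoc, mul_assoc, ← mul_assoc a, ← h2, mul_assoc]

/-- The trace, as a complex number. -/
noncomputable def tC (x : (baseW W ℂ).H X) : ℂ := (baseW W ℂ).tr X x

lemma tC_zero : tC (0 : (baseW W ℂ).H X) = 0 := map_zero ((baseW W ℂ).tr X)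

/-- The form. -/
noncomputable def Bf (s : Module.End W.K (W.H X)) (x y : (baseW W ℂ).H X) : ℂ :=
  (baseW W ℂ).tr X (x * bcO s (T.J X y))

/-- The value of the form on two pieces. -/
lemma Bf_val (hT : ∀ (X : 𝒱.Obj) (p q : ℤ) (x : HL W ℂ X), IsType H.pq p q x →
    (T.J X x : HL W ℂ X) = smL (Complex.I ^ (p - q)) (H.cj X x)) (hD : X.IsCyc 1 D)
    {s : Module.End W.K (W.H X)} (hs : IsStar ((baseW W ℂ).gr X) X.dim (Lo W X D) (bcO s))
    {p q r r' : ℕ} (hpq : p + q + r ≤ X.dim) {a b : (baseW W ℂ).H X} (hb : PQ H p q b)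
    (hb0 : (baseW W ℂ).cl X D ^ (X.dim - (p + q) + 1) * b = 0) :
    Bf T s ((baseW W ℂ).cl X D ^ r' * a) ((baseW W ℂ).cl X D ^ r * b) =
      (-1) ^ ((p + q) * (p + q - 1) / 2) *
        tC ((baseW W ℂ).cl X D ^ (r' + (X.dim - (p + q) - r)) * (a * T.J X b)) := by
  have hJt := J_type H T hT hb
  have hJg : T.J X b ∈ (baseW W ℂ).gr X (p + q) := hJt.gr H (by push_cast; ring)
  have hJ0 : (Lo W X D ^ (X.dim - (p + q) + 1)) (T.J X b) = 0 := by
    rw [Lo_pow, ← J_pow, hb0, J_zero]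
  have h1 := hs (p + q) (by omega) (T.J X b) hJg hJ0 r (by omega)
  rw [Lo_pow, Lo_pow, ← J_pow] at h1
  unfold Bf
  rw [h1, mul_smul_comm, map_smul, mul_swap hD]
  rfl

end main

/-- **Piece HRS** (the statement with the condition that only the types with nonnegative entries
occur). -/
def S_HRS' : Prop := ∀ {k : Type u} [Field k] {𝒱 : VarClass k} {ops : CycleOps 𝒱}
  (W : WeilCohomology.{u, 0} ops) [Algebra W.K ℂ] (H : HodgeDec W) (T : TwConj W),
  (∀ (X : 𝒱.Obj) (p q : ℤ) (x : HL W ℂ X), IsType H.pq p q x →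
    (T.J X x : HL W ℂ X) = smL (Complex.I ^ (p - q)) (H.cj X x)) →
  ∀ (X : 𝒱.Obj), (∀ (p q : ℤ) (x : HL W ℂ X), IsType H.pq p q x → x ≠ 0 → 0 ≤ p ∧ 0 ≤ q) →
  ∀ (D : X.Cycles), Polarizes H X D →
  ∃ s : Module.End W.K (W.H X), s * s = 1 ∧
    (∀ f : Module.End W.K (W.H X), (∀ i, ∀ x ∈ W.gr X i, f x ∈ W.gr X i) →
      (∀ x, f (W.cl X D * x) = W.cl X D * f x) → f * s = s * f) ∧
    ∀ x : (baseW W ℂ).H X, x ≠ 0 → ∃ r : ℝ, 0 < r ∧
      (baseW W ℂ).tr X (x * bcO s (T.J X x)) = cK W (r : ℂ)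

theorem t_HRS' : S_HRS'.{u} := by
  intro k _ 𝒱 ops W _ H T hT X heff D ⟨hD, hHL, hpos⟩
  have hfin : Module.Finite W.K (W.H X) := (W.isPoincareAlgebra X).finite
  obtain ⟨s, hs⟩ := exists_star (n := X.dim) (L := LinearMap.mulLeft W.K (W.cl X D))
    (W.isInternal X) (mulLeft_isHom hD) W_hbd hHL
  have hsC := bcO_star hD hHL hs
  refine ⟨s, hs.sq (W.isInternal X) (mulLeft_isHom hD) W_hbd hHL, fun f hf hfL =>
    hs.comm (W.isInternal X) (mulLeft_isHom hD) W_hbd hHL hf hfL, ?_⟩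
  intro x hx
  obtain ⟨f, hf, hsum⟩ := (Submodule.mem_iSup_iff_exists_finsupp _ _).1
    (iSup_Pc H heff hD hHL x)
  refine pos_of_pieces (Bf T s) ?_ ?_ f ?_ ?_ x hx hsum
  · intro x x' y
    unfold Bf
    rw [add_mul, map_add]
    rfl
  · intro x y y'
    unfold Bf
    rw [T.map_add, map_add, mul_add, map_add]
    rfl
  · intro t t' htt
    obtain ⟨a, ha, ha0, hxa⟩ := hf t
    obtain ⟨b, hb, hb0, hxb⟩ := hf t'
    rw [hxa, hxb, Bf_val H T hT hD hsC t'.2 hb hb0]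
    by_contra hne
    have hne' : (baseW W ℂ).tr X ((baseW W ℂ).cl X D ^ (t.1.2.2 +
        (X.dim - (t'.1.1 + t'.1.2.1) - t'.1.2.2)) * (a * T.J X b)) ≠ 0 := by
      intro h
      apply hne
      have h' : tC ((baseW W ℂ).cl X D ^ (t.1.2.2 +
        (X.dim - (t'.1.1 + t'.1.2.1) - t'.1.2.2)) * (a * T.J X b)) = 0 := h
      rw [h', mul_zero]
    have hJt := J_type H T hT hb
    have h1 := (ha.mul H hJt).pow_mul H hD (t.1.2.2 + (X.dim - (t'.1.1 + t'.1.2.1) - t'.1.2.2))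
    have h2 := h1.tr H hne'
    have ht := t.2
    have ht' := t'.2
    have h3 := h1.gr H (i := t.1.1 + t'.1.2.1 + (t.1.2.1 + t'.1.1) +
      2 * (t.1.2.2 + (X.dim - (t'.1.1 + t'.1.2.1) - t'.1.2.2))) (by push_cast; ring)
    have h4 : t.1.1 + t'.1.2.1 + (t.1.2.1 + t'.1.1) +
      2 * (t.1.2.2 + (X.dim - (t'.1.1 + t'.1.2.1) - t'.1.2.2)) = 2 * X.dim := by
      by_contra h
      exact hne' ((baseW W ℂ).tr_eq_zero h3 h)
    obtain ⟨⟨p, q, r⟩, hpqr⟩ := t
    obtain ⟨⟨p', q', r'⟩, hpqr'⟩ := t'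
    simp only at *
    have h5 : p + q' = q + p' := by omega
    by_cases hi : p + q = p' + q'
    · apply htt
      have e1 : p = p' := by omega
      have e2 : q = q' := by omega
      have e3 : r = r' := by omega
      subst e1 e2 e3
      rfl
    · apply hne'
      by_cases hi' : p' + q' < p + q
      · have h6 : r + (X.dim - (p' + q') - r') = (r + (X.dim - (p' + q') - r') -
          (X.dim - (p + q) + 1)) + (X.dim - (p + q) + 1) := by omega
        rw [h6, pow_add, mul_assoc, ← mul_assoc _ a, ha0, zero_mul, mul_zero, map_zero]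
      · have h6 : r + (X.dim - (p' + q') - r') = (r + (X.dim - (p' + q') - r') -
          (X.dim - (p' + q') + 1)) + (X.dim - (p' + q') + 1) := by omega
        have h7 : Commute ((baseW W ℂ).cl X D) a :=
          (baseW W ℂ).even_comm (p := 1) ((baseW W ℂ).cl_mem hD) a
        have h8 : (baseW W ℂ).cl X D ^ (X.dim - (p' + q') + 1) * T.J X b = 0 := by
          rw [← J_pow, hb0, J_zero]
        rw [h6, pow_add, mul_assoc, ← mul_assoc _ a, (h7.pow_left _).eq, mul_assoc a, h8, mul_zero,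
          mul_zero, map_zero]
  · intro t ht0
    obtain ⟨a, ha, ha0, hxa⟩ := hf t
    have htt := t.2
    rw [hxa, Bf_val H T hT hD hsC t.2 ha ha0]
    have hane : (a : HL W ℂ X) ≠ 0 := by
      rintro rfl
      exact ht0 (hxa.trans (mul_zero _))
    obtain ⟨r, hr, hr'⟩ := hpos t.1.1 t.1.2.1 a (by omega) ha hane (by
      have : mulL (emL W ℂ (W.cl X D ^ (X.dim - (t.1.1 + t.1.2.1) + 1))) a =
        ((baseW W ℂ).cl X D ^ (X.dim - (t.1.1 + t.1.2.1) + 1) * a : (baseW W ℂ).H X) := by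
          change (em W ℂ (W.cl X D ^ (X.dim - (t.1.1 + t.1.2.1) + 1)) * a : (baseW W ℂ).H X) = _
          rw [em_pow']
          rfl
      rw [this, ha0]
      rfl)
    refine ⟨r, hr, ?_⟩
    rw [← hr']
    have e1 : t.1.2.2 + (X.dim - (t.1.1 + t.1.2.1) - t.1.2.2) = X.dim - (t.1.1 + t.1.2.1) := by
      omega
    have e2 := J_val H T hT ha
    have e3 : Complex.I ^ ((t.1.1 : ℤ) - t.1.2.1) = Complex.I ^ t.1.1 * (-Complex.I) ^ t.1.2.1 := by
      rw [zpow_sub₀ Complex.I_ne_zero, zpow_natCast, zpow_natCast, div_eq_mul_inv, ← inv_pow,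
        Complex.inv_I]
    have e4 : tC ((baseW W ℂ).cl X D ^ (X.dim - (t.1.1 + t.1.2.1)) *
        (a * (cK W (Complex.I ^ ((t.1.1 : ℤ) - t.1.2.1)) • cjb H a))) =
        Complex.I ^ ((t.1.1 : ℤ) - t.1.2.1) *
          tC ((baseW W ℂ).cl X D ^ (X.dim - (t.1.1 + t.1.2.1)) * (a * cjb H a)) := by
      rw [mul_smul_comm, mul_smul_comm]
      exact map_smul ((baseW W ℂ).tr X) _ _
    have e5 : trC (mulL (emL W ℂ (W.cl X D ^ (X.dim - (t.1.1 + t.1.2.1)))) (mulL a (H.cj X a))) =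
        tC ((baseW W ℂ).cl X D ^ (X.dim - (t.1.1 + t.1.2.1)) * (a * cjb H a)) := by
      have : (baseW W ℂ).cl X D ^ (X.dim - (t.1.1 + t.1.2.1)) =
        em W ℂ (W.cl X D ^ (X.dim - (t.1.1 + t.1.2.1))) := by
          rw [em_pow']
          rfl
      rw [this]
      rfl
    rw [e1, e2, e4, e3, e5, ← mul_assoc]

theorem t_HRS : S_HRS.{u} := fun W _ H T hT X D hD => t_HRS' W H T hT X (H.eff X) D hD

end Pool.Agent.E8helper65.TX
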